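import Pool.Agent.Mg.F536a45a.Gb326ed

/-!
Stringy motives of wild linear quotient singularities: an infinite family that is algebraically
independent over `ℤ[L^(1/ρ)]` in the completed Grothendieck ring.
-/

namespace Pool.Agent.Results.MP_536a45_ag.AlgIndependent

open Pool.Agent.MP_536a45_ag

/-- In characteristic two there are subgroups `G s ≅ (ℤ/2)³` of `GL₅₄(k)`, `s ∈ ℕ`, without
pseudo-reflections, with free canonical module of the quotient, whose stringy motives `M s` all
converge and such that `L^(1/ρ), M 0, M 1, …` are algebraically independent over `ℤ`. -/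
theorem result : ∃ (k : Type) (_ : Field k) (_ : IsAlgClosed k) (_ : CharP k 2) (σ : Type)
    (_ : Fintype σ) (_ : DecidableEq σ) (G : ℕ → Subgroup (GL σ k)), Fintype.card σ = 54 ∧
    (∀ s, Nat.card (G s) = 8 ∧ (∀ g ∈ G s, g ^ 2 = 1) ∧ NoPseudoReflection (G s) ∧
      Nonempty (Pres k (invariants (G s)) 54)) ∧
    ∀ (P : ∀ s, Pres k (invariants (G s)) 54) (ρ : ℕ), 0 < ρ →
      ∃ M : ℕ → MotHat k ρ, (∀ s, (P s).IsStringy ρ (M s)) ∧
        AlgebraicIndependent ℤ fun o : Option ℕ => o.elim (rootHat k ρ) M := by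
  obtain ⟨A, hA, h⟩ := Tr.main_indep
  exact Tr.final_gen (by norm_num) rfl A hA h

end Pool.Agent.Results.MP_536a45_ag.AlgIndependent
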