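import Pool.Agent.Mg.F536a45.Gd0d336

/-!
A wild linear quotient singularity whose stringy motive is finite but is not a rational function
in `L^(1/|G|)`.
-/

namespace Pool.Agent.Results.MP_536a45_ag.NotRational

open Pool.Agent.MP_536a45_ag_b

set_option maxRecDepth 4000 in
theorem result : ∃ (k : Type) (_ : Field k) (_ : IsAlgClosed k) (n : Type) (_ : Fintype n)
    (_ : DecidableEq n) (G : Subgroup (GL n k)), IsCounterexample G := by
  refine ⟨K, inferInstance, inferInstance, N, inferInstance, inferInstance, GG, by simp, finite_GG,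
    rank_ne_one, finiteType_R, II, ?_, fun m f hf b ρ hρ hd =>
      ⟨exists_integral hf b hρ, fun M hM => ?_⟩⟩
  · rw [Nat.card_eq_fintype_card]
    exact ⟨omega_spec.1, omega_spec.2.1⟩
  rw [card_GG] at hd ⊢
  obtain ⟨k, rfl⟩ := hd
  rw [Nat.mul_div_cancel_left _ (by norm_num)]
  exact not_isRatFun hf (by omega) hM

end Pool.Agent.Results.MP_536a45_ag.NotRational
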